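import Pool.Agent.U208.SI.Stm
import Pool.Agent.Helper734.IB.PL

/-!
Project SI, package PLB (helper95): sets without almost antipodal points are small
(Prekopa-Leindler).
-/

set_option autoImplicit false

namespace Pool.Agent.U208.SI

open Finset MeasureTheory ProbabilityTheory
open scoped ENNReal

namespace PLBaux

/-- the density -/
noncomputable def den (D : ℕ) (x : Fin D → ℝ) : ℝ≥0∞ := ENNReal.ofReal (Real.exp (-(sq x / 2)))

theorem meas_sq (D : ℕ) : Measurable (sq : (Fin D → ℝ) → ℝ) := by
  unfold sq
  fun_prop

theorem meas_den (D : ℕ) : Measurable (den D) := by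
  have := meas_sq D
  unfold den
  fun_prop

theorem meas_box (D : ℕ) : MeasurableSet (box D) := by
  have : box D = ⋂ i, {x : Fin D → ℝ | |x i| ≤ 1} := by
    ext x
    simp [box]
  rw [this]
  refine MeasurableSet.iInter fun i => ?_
  exact measurableSet_le (by fun_prop) measurable_const

theorem mu_eq (D : ℕ) {A : Set (Fin D → ℝ)} (hA : MeasurableSet A) (hAb : A ⊆ box D) :
    mu D A = ∫⁻ x, A.indicator (den D) x := by
  unfold mu
  rw [withDensity_apply _ hA, Measure.restrict_restrict hA, Set.inter_eq_left.2 hAb,
    lintegral_indicator hA]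
  rfl

theorem mu_univ (D : ℕ) : mu D Set.univ = ∫⁻ x, (box D).indicator (den D) x := by
  unfold mu
  rw [withDensity_apply _ MeasurableSet.univ, Measure.restrict_univ,
    lintegral_indicator (meas_box D)]
  rfl

theorem sq_id {D : ℕ} (s t : Fin D → ℝ) :
    sq s / 2 + sq t / 2 = sq (fun i => (s i + t i) / 2) + sq (s + -t) / 4 := by
  unfold sq
  rw [Finset.sum_div, Finset.sum_div, Finset.sum_div, ← Finset.sum_add_distrib,
    ← Finset.sum_add_distrib]
  refine Finset.sum_congr rfl fun i _ => ?_
  simp only [Pi.add_apply, Pi.neg_apply]
  ring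

theorem sq_neg {D : ℕ} (t : Fin D → ℝ) : sq (-t) = sq t := by
  unfold sq
  refine Finset.sum_congr rfl fun i _ => ?_
  simp only [Pi.neg_apply]
  ring

end PLBaux

open PLBaux in
/-- (PLB) sets without almost antipodal points are small -/
theorem PLB_ok : S_PLB := by
  intro D A Δ hA hAb hΔ
  have hf : Measurable (A.indicator (den D)) := (meas_den D).indicator hA
  have hb : Measurable ((box D).indicator (den D)) := (meas_den D).indicator (meas_box D)
  have key := Pool.Agent.Helper734.IB.pln D (A.indicator (den D))
    (fun x => A.indicator (den D) (-x))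
    (fun z => ENNReal.ofReal (Real.exp (-(Δ / 8))) * (box D).indicator (den D) z) hf
    (hf.comp measurable_neg) (hb.const_mul _) (by
      intro s t
      by_cases hs : s ∈ A
      · by_cases ht : -t ∈ A
        · have hm : (fun i => (s i + t i) / 2) ∈ box D := by
            intro i
            have h1 := hAb hs i
            have h2 := hAb ht i
            rw [Pi.neg_apply, abs_neg] at h2
            rw [abs_le] at h1 h2 ⊢
            constructor <;> linarith [h1.1, h1.2, h2.1, h2.2]
          rw [Set.indicator_of_mem hs]
          show den D s * A.indicator (den D) (-t) ≤ _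
          rw [Set.indicator_of_mem ht, Set.indicator_of_mem hm]
          unfold den
          rw [← ENNReal.ofReal_mul (Real.exp_pos _).le, ← ENNReal.ofReal_mul (Real.exp_pos _).le,
            ← Real.exp_add, ← Real.exp_add, ← ENNReal.ofReal_pow (Real.exp_pos _).le,
            ← Real.exp_nat_mul, sq_neg]
          apply ENNReal.ofReal_le_ofReal
          apply Real.exp_le_exp.2
          have h3 := sq_id s t
          have h4 := hΔ s hs (-t) ht
          push_cast
          linarith
        · show A.indicator (den D) s * A.indicator (den D) (-t) ≤ _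
          rw [Set.indicator_of_notMem ht, mul_zero]
          exact zero_le
      · rw [Set.indicator_of_notMem hs, zero_mul]
        exact zero_le)
  have h1 : ∫⁻ x, A.indicator (den D) (-x) = ∫⁻ x, A.indicator (den D) x :=
    lintegral_neg_eq_self (μ := volume) (A.indicator (den D))
  rw [h1, ← mu_eq D hA hAb, lintegral_const_mul _ hb, ← mu_univ, ← pow_two] at key
  exact (ENNReal.pow_right_strictMono two_ne_zero).le_iff_le.1 key

end Pool.Agent.U208.SI
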